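import Pool.Agent.Q171.SUC.Global

set_option autoImplicit false

open MeasureTheory Set Filter Topology Metric
open scoped ENNReal ContDiff

/-!
# Strong unique continuation for `|∂̄u| ≤ V|u|` with `V ∈ L^{2n}_loc`

Notions used (all in `Pool.Agent.Q171.SUC.Defs`): `Cn n` is `ℂⁿ` with its Euclidean norm,
`LpLoc s Ω f` is `f ∈ L^s_loc(Ω)`, `W1Loc p Ω u gx gy` says that `u ∈ W^{1,p}_loc(Ω; ℂᵐ)` with
distributional derivatives `∂u/∂x_j = gx j`, `∂u/∂y_j = gy j`, `dbarNorm gx gy` is the pointwise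
Euclidean norm of `∂̄u` and `VanishesInf s u z0` is vanishing to infinite order in the `L^s` sense.
-/

namespace Pool.Agent.Results.MP_b3ccf3_an.StrongUCP

open Pool.Agent.Q171.SUC

/-- Strong unique continuation: for `n ≥ 2`, a connected open set `Ω ⊆ ℂⁿ`,
`u ∈ W^{1,p}_loc(Ω; ℂᵐ)` with `p = 4n/(2n+1)` and `V ∈ L^{2n}_loc(Ω)` such that
`|∂̄u| ≤ V|u|` almost everywhere on `Ω`, if `u` vanishes to infinite order in the `L^{p'}` sense,
`p' = 4n/(2n-1)`, at a point of `Ω`, then `u = 0` almost everywhere on `Ω`. -/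
theorem result (n m : ℕ) (hn : 2 ≤ n) (Ω : Set (Cn n)) (hΩ : IsOpen Ω) (hc : IsConnected Ω)
    (u : Cn n → Cn m) (gx gy : Fin n → Cn n → Cn m)
    (hu : W1Loc (4 * n / (2 * n + 1)) Ω u gx gy)
    (V : Cn n → ℝ) (hV : LpLoc (2 * n) Ω V)
    (hineq : ∀ᵐ z ∂(volume.restrict Ω), dbarNorm gx gy z ≤ V z * ‖u z‖)
    (z0 : Cn n) (hz0 : z0 ∈ Ω) (hvan : VanishesInf (4 * n / (2 * n - 1)) u z0) :
    ∀ᵐ z ∂(volume.restrict Ω), u z = 0 :=
  main hn hΩ hc.isPreconnected hu hV hineq hz0 hvan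

end Pool.Agent.Results.MP_b3ccf3_an.StrongUCP
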